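import Pool.Agent.Helper75.Torus.Goals

set_option autoImplicit false

/-!
# Wandering Euler flows on the torus: the initial velocity
-/

open Set MeasureTheory Matrix Finset

namespace Pool.Agent.Helper8.Torus

open Pool.Agent.Helper75.Torus
open Pool.Agent.Helper75.Flow (curlL)

/-! ### Series -/

theorem hs_bound {f : ℕ → ℝ} {a C : ℝ} (h : HasSum f a) (hb : ∀ K, ∑ n ∈ range K, |f n| ≤ C) :
    |a| ≤ C :=
  le_of_tendsto' h.tendsto_sum_nat.abs
    (fun K => (Finset.abs_sum_le_sum_abs _ _).trans (hb K))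

theorem geo (K : ℕ) : ∑ n ∈ range K, (1 / 4 : ℝ) ^ n ≤ 4 / 3 := by
  have h : ∑ n ∈ range K, (1 / 4 : ℝ) ^ n = 4 / 3 - 4 / 3 * (1 / 4 : ℝ) ^ K := by
    induction K with
    | zero => simp
    | succ K ih => rw [Finset.sum_range_succ, ih, pow_succ]; ring
  rw [h]
  have : (0 : ℝ) ≤ (1 / 4 : ℝ) ^ K := by positivity
  linarith

theorem geo1 (K : ℕ) : ∑ n ∈ range K, (1 / 4 : ℝ) ^ (n + 1) ≤ 1 / 3 := by
  have h := geo K
  have h2 : ∑ n ∈ range K, (1 / 4 : ℝ) ^ (n + 1) = 1 / 4 * ∑ n ∈ range K, (1 / 4 : ℝ) ^ n := by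
    rw [Finset.mul_sum]
    exact Finset.sum_congr rfl fun n _ => by rw [pow_succ]; ring
  rw [h2]
  linarith

/-- a lacunary series -/
theorem hoelder_sum (α : ℝ) (h0 : 0 < α) (h1 : α < 1) : ∃ C : ℝ, 0 ≤ C ∧ ∀ L : ℕ → ℝ,
    (∀ n, 0 < L n) → (∀ n, 2 * L n ≤ L (n + 1)) → ∀ d : ℝ, 0 < d → ∀ K,
      ∑ n ∈ range K, min (2 * L n ^ (-α)) (3 * L n ^ (1 - α) * d) ≤ C * d ^ α := by
  have hρ : (1 / 2 : ℝ) ^ (1 - α) < 1 := Real.rpow_lt_one (by norm_num) (by norm_num) (by linarith)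
  have hσ : (1 / 2 : ℝ) ^ α < 1 := Real.rpow_lt_one (by norm_num) (by norm_num) h0
  set ρ : ℝ := (1 / 2 : ℝ) ^ (1 - α) with hρdef
  set σ : ℝ := (1 / 2 : ℝ) ^ α with hσdef
  set A : ℝ := 3 / (1 - ρ) with hA
  set B : ℝ := 2 / (1 - σ) with hB
  have hA0 : 0 < A := div_pos (by norm_num) (by linarith)
  have hB0 : 0 < B := div_pos (by norm_num) (by linarith)
  have hAρ : A * (1 - ρ) = 3 := div_mul_cancel₀ _ (by linarith)
  have hBσ : B * (1 - σ) = 2 := div_mul_cancel₀ _ (by linarith)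
  refine ⟨A + B, by positivity, fun L hL hL2 d hd K => ?_⟩
  have hd' : 0 < 1 / d := by positivity
  let W : ℕ → ℝ := fun n => match n with
    | 0 => 0
    | n + 1 => (min (L n) (1 / d)) ^ (1 - α)
  let V : ℕ → ℝ := fun n => (max (L n) (1 / d)) ^ (-α)
  have hLm : ∀ n, L n ≤ L (n + 1) := fun n => by linarith [hL n, hL2 n]
  have hW0 : ∀ n, 0 ≤ W n := by
    intro n
    rcases n with _ | n
    · exact le_rfl
    · exact Real.rpow_nonneg (le_min (hL n).le hd'.le) _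
  have hWm : ∀ n, W n ≤ W (n + 1) := by
    intro n
    rcases n with _ | n
    · exact hW0 1
    · refine Real.rpow_le_rpow (le_min (hL n).le hd'.le) ?_ (by linarith)
      exact min_le_min_right _ (hLm n)
  have hVm : ∀ n, V (n + 1) ≤ V n := by
    intro n
    refine Real.rpow_le_rpow_of_nonpos (lt_max_of_lt_left (hL n)) ?_ (by linarith)
    exact max_le_max_right _ (hLm n)
  have hV0 : ∀ n, 0 ≤ V n := fun n => Real.rpow_nonneg (le_max_of_le_left (hL n).le) _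
  have hWb : ∀ n, W n ≤ (1 / d) ^ (1 - α) := by
    intro n
    rcases n with _ | n
    · exact Real.rpow_nonneg hd'.le _
    · exact Real.rpow_le_rpow (le_min (hL n).le hd'.le) (min_le_right _ _) (by linarith)
  have hVb : V 0 ≤ (1 / d) ^ (-α) :=
    Real.rpow_le_rpow_of_nonpos hd' (le_max_right _ _) (by linarith)
  have hstep : ∀ n, min (2 * L n ^ (-α)) (3 * L n ^ (1 - α) * d) ≤
      A * d * (W (n + 1) - W n) + B * (V n - V (n + 1)) := by
    intro n
    rcases le_or_gt (L n) (1 / d) with hc | hc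
    · refine (min_le_right _ _).trans ?_
      have e1 : W (n + 1) = L n ^ (1 - α) := by
        change (min (L n) (1 / d)) ^ (1 - α) = _
        rw [min_eq_left hc]
      have e2 : W n ≤ ρ * L n ^ (1 - α) := by
        rcases n with _ | m
        · have : 0 ≤ ρ * L 0 ^ (1 - α) :=
            mul_nonneg (Real.rpow_nonneg (by norm_num) _) (Real.rpow_nonneg (hL 0).le _)
          exact this
        · change (min (L m) (1 / d)) ^ (1 - α) ≤ _
          have e3 : min (L m) (1 / d) ≤ 1 / 2 * L (m + 1) :=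
            (min_le_left _ _).trans (by linarith [hL2 m])
          refine (Real.rpow_le_rpow (le_min (hL m).le hd'.le) e3 (by linarith)).trans ?_
          rw [Real.mul_rpow (by norm_num) (hL _).le]
      have e4 : A * d * (W (n + 1) - W n) ≥ 3 * L n ^ (1 - α) * d := by
        rw [e1]
        have e5 : (1 - ρ) * L n ^ (1 - α) ≤ L n ^ (1 - α) - W n := by linarith
        have e6 := mul_le_mul_of_nonneg_left e5 (show 0 ≤ A * d by positivity)
        calc 3 * L n ^ (1 - α) * d = (A * (1 - ρ)) * L n ^ (1 - α) * d := by rw [hAρ]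
          _ = A * d * ((1 - ρ) * L n ^ (1 - α)) := by ring
          _ ≤ _ := e6
      have e7 : 0 ≤ B * (V n - V (n + 1)) := mul_nonneg hB0.le (by linarith [hVm n])
      linarith
    · refine (min_le_left _ _).trans ?_
      have e1 : V n = L n ^ (-α) := by
        change (max (L n) (1 / d)) ^ (-α) = _
        rw [max_eq_left hc.le]
      have e2 : V (n + 1) ≤ σ * L n ^ (-α) := by
        have e3 : 2 * L n ≤ max (L (n + 1)) (1 / d) := (hL2 n).trans (le_max_left _ _)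
        refine (Real.rpow_le_rpow_of_nonpos (by linarith [hL n]) e3 (by linarith)).trans ?_
        rw [Real.mul_rpow (by norm_num) (hL n).le, hσdef, one_div, Real.inv_rpow (by norm_num),
          Real.rpow_neg (by norm_num) α]
      have e4 : B * (V n - V (n + 1)) ≥ 2 * L n ^ (-α) := by
        rw [e1]
        have e5 : (1 - σ) * L n ^ (-α) ≤ L n ^ (-α) - V (n + 1) := by linarith
        have e6 := mul_le_mul_of_nonneg_left e5 hB0.le
        calc 2 * L n ^ (-α) = (B * (1 - σ)) * L n ^ (-α) := by rw [hBσ]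
          _ = B * ((1 - σ) * L n ^ (-α)) := by ring
          _ ≤ _ := e6
      have e7 : 0 ≤ A * d * (W (n + 1) - W n) := mul_nonneg (by positivity) (by linarith [hWm n])
      linarith
  have hsum : ∀ K, ∑ n ∈ range K, min (2 * L n ^ (-α)) (3 * L n ^ (1 - α) * d) ≤
      A * d * W K + B * (V 0 - V K) := by
    intro K
    induction K with
    | zero =>
      have : W 0 = 0 := rfl
      simp [this]
    | succ K ih =>
      rw [Finset.sum_range_succ]
      linarith [hstep K]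
  refine (hsum K).trans ?_
  have e1 : d * (1 / d) ^ (1 - α) = d ^ α := by
    rw [one_div, Real.inv_rpow hd.le, ← Real.rpow_neg hd.le]
    nth_rw 1 [← Real.rpow_one d]
    rw [← Real.rpow_add hd]
    congr 1
    ring
  have e2 : (1 / d) ^ (-α) = d ^ α := by
    rw [one_div, Real.inv_rpow hd.le, ← Real.rpow_neg hd.le, neg_neg]
  have e3 : A * d * W K ≤ A * d ^ α := by
    rw [← e1, mul_assoc]
    exact mul_le_mul_of_nonneg_left (mul_le_mul_of_nonneg_left (hWb K) hd.le) hA0.le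
  have e4 : B * (V 0 - V K) ≤ B * d ^ α := by
    rw [← e2]
    exact mul_le_mul_of_nonneg_left (by linarith [hV0 K]) hB0.le
  linarith

/-! ### The eight classes -/

theorem dir_01 (n : ℕ) (j : Fin 3) : dir n j = 0 ∨ dir n j = 1 := by
  have h : n % 8 < 8 := Nat.mod_lt _ (by norm_num)
  interval_cases hn : n % 8 <;> fin_cases j <;> simp [dir, hn]

theorem sqrt2_sq : (1 / Real.sqrt 2) ^ 2 = 1 / 2 := by
  rw [div_pow, one_pow, Real.sq_sqrt (by norm_num)]

theorem sqrt6_sq : (1 / Real.sqrt 6) ^ 2 = 1 / 6 := by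
  rw [div_pow, one_pow, Real.sq_sqrt (by norm_num)]

theorem pol_le (n : ℕ) (i : Fin 3) : |pol n i| ≤ 1 := by
  have h : n % 8 < 8 := Nat.mod_lt _ (by norm_num)
  have h2 := sqrt2_sq
  have h6 := sqrt6_sq
  have a2 : |1 / Real.sqrt 2| ≤ 1 := by
    rw [abs_le]
    constructor <;> nlinarith [sq_nonneg (1 / Real.sqrt 2 - 1), sq_nonneg (1 / Real.sqrt 2 + 1)]
  have a6 : |1 / Real.sqrt 6| ≤ 1 := by
    rw [abs_le]
    constructor <;> nlinarith [sq_nonneg (1 / Real.sqrt 6 - 1), sq_nonneg (1 / Real.sqrt 6 + 1)]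
  have b6 : |2 / Real.sqrt 6| ≤ 1 := by
    have e : 2 / Real.sqrt 6 = 2 * (1 / Real.sqrt 6) := by ring
    rw [e, abs_le]
    constructor <;> nlinarith [sq_nonneg (2 * (1 / Real.sqrt 6) - 1),
      sq_nonneg (2 * (1 / Real.sqrt 6) + 1)]
  interval_cases hn : n % 8 <;> fin_cases i <;> simp only [pol, hn] <;>
    simp <;> first | (simpa using a2) | (simpa using a6) | (simpa using b6)

theorem pol_dir (n : ℕ) : ∑ i, dir n i * pol n i = 0 := by
  have h : n % 8 < 8 := Nat.mod_lt _ (by norm_num)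
  rw [Fin.sum_univ_three]
  interval_cases hn : n % 8 <;> simp only [pol, dir, hn] <;> simp <;> ring

theorem vor (n : ℕ) : |dir n 0 * pol n 1 - dir n 1 * pol n 0| ≤ nn (dir n) := by
  have h : n % 8 < 8 := Nat.mod_lt _ (by norm_num)
  interval_cases hn : n % 8 <;> simp only [pol, dir, hn, nn, dotProduct, Fin.sum_univ_three] <;>
    simp
  · have e : -(Real.sqrt 2)⁻¹ - (Real.sqrt 2)⁻¹ = -Real.sqrt 2 := by
      have h2 : Real.sqrt 2 * Real.sqrt 2 = 2 := Real.mul_self_sqrt (by norm_num)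
      have h3 : Real.sqrt 2 ≠ 0 := by positivity
      field_simp
      nlinarith
    rw [e, abs_neg, abs_of_nonneg (Real.sqrt_nonneg _)]
    exact Real.sqrt_le_sqrt (by norm_num)

theorem nn_dir (n : ℕ) : 1 ≤ nn (dir n) ∧ nn (dir n) ≤ 2 := by
  have h : n % 8 < 8 := Nat.mod_lt _ (by norm_num)
  have h3 : Real.sqrt (1 + 1 + 1) ≤ 2 := by
    rw [Real.sqrt_le_left (by norm_num)]
    norm_num
  have h3' : 1 ≤ Real.sqrt (1 + 1 + 1) := by
    rw [Real.one_le_sqrt]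
    norm_num
  interval_cases hn : n % 8 <;> simp only [dir, hn, nn, dotProduct, Fin.sum_univ_three] <;>
    simp <;> exact h3

/-! ### The lengths -/

theorem pow_pos' {N : ℕ} (hN : 4 ≤ N) (n : ℕ) : (0 : ℝ) < (N : ℝ) ^ (n ^ 2) := by
  have : (0 : ℝ) < N := by exact_mod_cast (by omega : 0 < N)
  positivity

theorem lam_pos {N : ℕ} (hN : 4 ≤ N) (n : ℕ) : 0 < lamn N n :=
  mul_pos (pow_pos' hN n) (lt_of_lt_of_le one_pos (nn_dir n).1)

theorem pow_le_lam {N : ℕ} (hN : 4 ≤ N) (n : ℕ) : (N : ℝ) ^ (n ^ 2) ≤ lamn N n := by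
  have := mul_le_mul_of_nonneg_left (nn_dir n).1 (pow_pos' hN n).le
  rw [mul_one] at this
  exact this

theorem lam_two {N : ℕ} (hN : 4 ≤ N) (n : ℕ) : 2 * lamn N n ≤ lamn N (n + 1) := by
  have h1 : (4 : ℝ) ≤ N := by exact_mod_cast hN
  have h2 : (N : ℝ) ^ ((n + 1) ^ 2) = (N : ℝ) ^ (n ^ 2) * (N : ℝ) ^ (2 * n + 1) := by
    rw [← pow_add]
    congr 1
    ring
  have h3 : (4 : ℝ) ≤ (N : ℝ) ^ (2 * n + 1) := by
    calc (4 : ℝ) ≤ N := h1
      _ = (N : ℝ) ^ 1 := (pow_one _).symm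
      _ ≤ (N : ℝ) ^ (2 * n + 1) := pow_le_pow_right₀ (by linarith) (by omega)
  have h4 := pow_pos' hN n
  calc 2 * lamn N n = (N : ℝ) ^ (n ^ 2) * (2 * nn (dir n)) := by rw [lamn]; ring
    _ ≤ (N : ℝ) ^ (n ^ 2) * 4 := mul_le_mul_of_nonneg_left (by linarith [(nn_dir n).2]) h4.le
    _ ≤ (N : ℝ) ^ (n ^ 2) * (N : ℝ) ^ (2 * n + 1) := mul_le_mul_of_nonneg_left h3 h4.le
    _ = (N : ℝ) ^ ((n + 1) ^ 2) := h2.symm
    _ ≤ lamn N (n + 1) := pow_le_lam hN (n + 1)

theorem lam_rpow {α : ℝ} {N : ℕ} (h0 : 0 < α) (hα : 4 ≤ (N : ℝ) ^ α) (hN : 4 ≤ N) (n : ℕ) :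
    (lamn N n) ^ (-α) ≤ (1 / 4) ^ n := by
  have hN0 : (0 : ℝ) < N := by exact_mod_cast (by omega : 0 < N)
  have h1 : (lamn N n) ^ (-α) ≤ ((N : ℝ) ^ (n ^ 2)) ^ (-α) :=
    Real.rpow_le_rpow_of_nonpos (pow_pos' hN n) (pow_le_lam hN n) (by linarith)
  refine h1.trans ?_
  have h2 : ((N : ℝ) ^ (n ^ 2)) ^ (-α) = (((N : ℝ) ^ α)⁻¹) ^ (n ^ 2) := by
    rw [Real.rpow_neg (pow_pos' hN n).le, ← Real.rpow_natCast, ← Real.rpow_mul hN0.le, mul_comm,
      Real.rpow_mul hN0.le, Real.rpow_natCast, inv_pow]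
  rw [h2]
  have h3 : ((N : ℝ) ^ α)⁻¹ ≤ 1 / 4 := by
    rw [← one_div]
    exact one_div_le_one_div_of_le (by norm_num) hα
  calc (((N : ℝ) ^ α)⁻¹) ^ (n ^ 2) ≤ (1 / 4 : ℝ) ^ (n ^ 2) :=
        pow_le_pow_left₀ (by positivity) h3 _
    _ ≤ (1 / 4 : ℝ) ^ n := pow_le_pow_of_le_one (by norm_num) (by norm_num)
        (by nlinarith [Nat.zero_le n, sq_nonneg n] : n ≤ n ^ 2)

/-- the amplitude -/
noncomputable def am (α : ℝ) (N n : ℕ) : ℝ := (lamn N n) ^ (-(1 + α))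

theorem am_nonneg {α : ℝ} {N : ℕ} (hN : 4 ≤ N) (n : ℕ) : 0 ≤ am α N n :=
  Real.rpow_nonneg (lam_pos hN n).le _

theorem am_mul {α : ℝ} {N : ℕ} (hN : 4 ≤ N) (n : ℕ) :
    am α N n * lamn N n = (lamn N n) ^ (-α) := by
  rw [am]
  nth_rw 2 [← Real.rpow_one (lamn N n)]
  rw [← Real.rpow_add (lam_pos hN n)]
  congr 1
  ring

theorem one_le_lam {N : ℕ} (hN : 4 ≤ N) (n : ℕ) : 1 ≤ lamn N n := by
  refine le_trans ?_ (pow_le_lam hN n)
  have h1 : (1 : ℝ) ≤ N := by exact_mod_cast (by omega : 1 ≤ N)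
  exact one_le_pow₀ h1

theorem am_le {α : ℝ} {N : ℕ} (hN : 4 ≤ N) (n : ℕ) : am α N n ≤ (lamn N n) ^ (-α) := by
  rw [← am_mul hN]
  exact le_mul_of_one_le_right (am_nonneg hN n) (one_le_lam hN n)

theorem xi_le {N : ℕ} (hN : 4 ≤ N) (n : ℕ) (j : Fin 3) : |xi N n j| ≤ lamn N n := by
  refine le_trans ?_ (pow_le_lam hN n)
  have h := pow_pos' hN n
  rw [xi, Pi.smul_apply, smul_eq_mul, abs_mul, abs_of_pos h]
  rcases dir_01 n j with h1 | h1 <;> rw [h1] <;> simp [h.le]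

/-- the scalar product as a linear form -/
noncomputable def dl (ξ : E) : E →L[ℝ] ℝ := ∑ j, ξ j • ContinuousLinearMap.proj (R := ℝ) j

theorem dl_apply (ξ x : E) : dl ξ x = ξ ⬝ᵥ x := by
  simp [dl, dotProduct]

theorem dot_le {N : ℕ} (hN : 4 ≤ N) (n : ℕ) (x : E) : |xi N n ⬝ᵥ x| ≤ 3 * lamn N n * ‖x‖ := by
  rw [dotProduct]
  refine (Finset.abs_sum_le_sum_abs _ _).trans ?_
  calc ∑ j, |xi N n j * x j| ≤ ∑ _j : Fin 3, lamn N n * ‖x‖ := by
        refine Finset.sum_le_sum fun j _ => ?_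
        rw [abs_mul]
        exact mul_le_mul (xi_le hN n j) (norm_le_pi_norm x j) (abs_nonneg _) (lam_pos hN n).le
    _ = 3 * lamn N n * ‖x‖ := by simp; ring

/-- the derivative of the `n`-th wave -/
noncomputable def dt (α : ℝ) (N n : ℕ) (x : E) : E →L[ℝ] E :=
  (-(am α N n * Real.sin (xi N n ⬝ᵥ x))) • (dl (xi N n)).smulRight (pol n)

theorem hasFD (α : ℝ) (N n : ℕ) (x : E) : HasFDerivAt (term α N n) (dt α N n x) x := by
  have h1 : HasFDerivAt (fun y : E => xi N n ⬝ᵥ y) (dl (xi N n)) x := by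
    have := (dl (xi N n)).hasFDerivAt (x := x)
    refine this.congr_of_eventuallyEq (Filter.Eventually.of_forall fun y => ?_)
    exact (dl_apply _ _).symm
  have h2 := ((h1.cos.const_mul (am α N n)).smul_const (pol n))
  refine h2.congr_fderiv ?_
  ext y i
  simp only [dt, ContinuousLinearMap.smulRight_apply, _root_.smul_apply,
    Pi.smul_apply, smul_eq_mul]
  ring

theorem dt_apply (α : ℝ) (N n : ℕ) (x y : E) (i : Fin 3) :
    dt α N n x y i = -(am α N n * Real.sin (xi N n ⬝ᵥ x) * (xi N n ⬝ᵥ y) * pol n i) := by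
  simp only [dt, _root_.smul_apply, ContinuousLinearMap.smulRight_apply,
    Pi.smul_apply, smul_eq_mul, dl_apply]
  ring

theorem dt_norm {α : ℝ} {N : ℕ} (h0 : 0 < α) (hα : 4 ≤ (N : ℝ) ^ α) (hN : 4 ≤ N) (n : ℕ) (x : E) :
    ‖dt α N n x‖ ≤ 3 * (1 / 4) ^ n := by
  refine ContinuousLinearMap.opNorm_le_bound _ (by positivity) fun y => ?_
  rw [pi_norm_le_iff_of_nonneg (by positivity)]
  intro i
  rw [dt_apply, norm_neg, Real.norm_eq_abs, abs_mul, abs_mul, abs_mul,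
    abs_of_nonneg (am_nonneg hN n)]
  have h1 := Real.abs_sin_le_one (xi N n ⬝ᵥ x)
  have h2 := dot_le hN n y
  have h3 := pol_le n i
  have h4 := am_nonneg (α := α) hN n
  have h5 := lam_rpow h0 hα hN n
  calc am α N n * |Real.sin (xi N n ⬝ᵥ x)| * |xi N n ⬝ᵥ y| * |pol n i|
      ≤ am α N n * 1 * (3 * lamn N n * ‖y‖) * 1 := by
        have hlam := lam_pos hN n
        gcongr
    _ = 3 * (am α N n * lamn N n) * ‖y‖ := by ring
    _ = 3 * (lamn N n) ^ (-α) * ‖y‖ := by rw [am_mul hN]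
    _ ≤ 3 * (1 / 4) ^ n * ‖y‖ := by gcongr

theorem term_apply (α : ℝ) (N n : ℕ) (x : E) (i : Fin 3) :
    term α N n x i = am α N n * Real.cos (xi N n ⬝ᵥ x) * pol n i := by
  rw [term, Pi.smul_apply, smul_eq_mul, am]

theorem term_le {α : ℝ} {N : ℕ} (h0 : 0 < α) (hα : 4 ≤ (N : ℝ) ^ α) (hN : 4 ≤ N) (n : ℕ) (x : E)
    (i : Fin 3) : |term α N n x i| ≤ (1 / 4) ^ n := by
  rw [term_apply, abs_mul, abs_mul, abs_of_nonneg (am_nonneg hN n)]
  have h1 := Real.abs_cos_le_one (xi N n ⬝ᵥ x)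
  have h3 := pol_le n i
  have h4 := am_nonneg (α := α) hN n
  calc am α N n * |Real.cos (xi N n ⬝ᵥ x)| * |pol n i| ≤ am α N n * 1 * 1 := by gcongr
    _ = am α N n := by ring
    _ ≤ (lamn N n) ^ (-α) := am_le hN n
    _ ≤ (1 / 4) ^ n := lam_rpow h0 hα hN n

theorem sum_geo : Summable (fun n : ℕ => (1 / 4 : ℝ) ^ n) :=
  summable_geometric_of_lt_one (by norm_num) (by norm_num)

theorem sum_term {α : ℝ} {N : ℕ} (h0 : 0 < α) (hα : 4 ≤ (N : ℝ) ^ α) (hN : 4 ≤ N) (x : E) :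
    Summable (fun n => term α N n x) := by
  refine Summable.of_norm_bounded sum_geo fun n => ?_
  rw [pi_norm_le_iff_of_nonneg (by positivity)]
  exact fun i => term_le h0 hα hN n x i

theorem hasFD_v0 {α : ℝ} {N : ℕ} (h0 : 0 < α) (hα : 4 ≤ (N : ℝ) ^ α) (hN : 4 ≤ N) (x : E) :
    HasFDerivAt (v0 α N) (∑' n, dt α N n x) x :=
  hasFDerivAt_tsum (x₀ := 0) (sum_geo.mul_left 3) (fun n x => hasFD α N n x)
    (fun n x => dt_norm h0 hα hN n x) (sum_term h0 hα hN 0) x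

theorem sum_dt {α : ℝ} {N : ℕ} (h0 : 0 < α) (hα : 4 ≤ (N : ℝ) ^ α) (hN : 4 ≤ N) (x : E) :
    Summable (fun n => dt α N n x) :=
  Summable.of_norm_bounded (sum_geo.mul_left 3) fun n => dt_norm h0 hα hN n x

/-- the entries of the derivative -/
theorem hasSum_entry {α : ℝ} {N : ℕ} (h0 : 0 < α) (hα : 4 ≤ (N : ℝ) ^ α) (hN : 4 ≤ N) (x : E)
    (i j : Fin 3) : HasSum (fun n => -(am α N n * Real.sin (xi N n ⬝ᵥ x) * xi N n j * pol n i))
      (fderiv ℝ (v0 α N) x (Pi.single j 1) i) := by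
  have h1 := (sum_dt h0 hα hN x).hasSum
  rw [← (hasFD_v0 h0 hα hN x).fderiv] at h1
  have h2 := h1.mapL ((ContinuousLinearMap.proj (R := ℝ) i).comp
    (ContinuousLinearMap.apply ℝ E (Pi.single j (1 : ℝ) : E)))
  refine h2.congr_fun ?_
  intro n
  simp only [ContinuousLinearMap.comp_apply, ContinuousLinearMap.apply_apply,
    ContinuousLinearMap.proj_apply, dt_apply, dotProduct_single_one]

theorem pd_eq {α : ℝ} {N : ℕ} (h0 : 0 < α) (hα : 4 ≤ (N : ℝ) ^ α) (hN : 4 ≤ N) (x : E)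
    (i j : Fin 3) : pd j (fun z => v0 α N z i) x = fderiv ℝ (v0 α N) x (Pi.single j 1) i := by
  have h1 : HasFDerivAt (fun z => v0 α N z i)
      ((ContinuousLinearMap.proj (R := ℝ) i).comp (fderiv ℝ (v0 α N) x)) x :=
    (ContinuousLinearMap.proj (R := ℝ) (φ := fun _ : Fin 3 => ℝ) i).hasFDerivAt.comp x
      (hasFD_v0 h0 hα hN x).differentiableAt.hasFDerivAt
  rw [pd, h1.fderiv]
  rfl

theorem hasSum_pd {α : ℝ} {N : ℕ} (h0 : 0 < α) (hα : 4 ≤ (N : ℝ) ^ α) (hN : 4 ≤ N) (x : E)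
    (i j : Fin 3) : HasSum (fun n => -(am α N n * Real.sin (xi N n ⬝ᵥ x) * xi N n j * pol n i))
      (pd j (fun z => v0 α N z i) x) := by
  rw [pd_eq h0 hα hN]
  exact hasSum_entry h0 hα hN x i j

/-! ### The velocity field -/

theorem contDiff_v0 {α : ℝ} {N : ℕ} (h0 : 0 < α) (hα : 4 ≤ (N : ℝ) ^ α) (hN : 4 ≤ N) :
    ContDiff ℝ 1 (v0 α N) := by
  rw [contDiff_one_iff_fderiv]
  refine ⟨fun x => (hasFD_v0 h0 hα hN x).differentiableAt, ?_⟩
  have h1 : fderiv ℝ (v0 α N) = fun x => ∑' n, dt α N n x :=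
    funext fun x => (hasFD_v0 h0 hα hN x).fderiv
  rw [h1]
  refine continuous_tsum (fun n => ?_) (sum_geo.mul_left 3) fun n x => dt_norm h0 hα hN n x
  have h2 : Continuous fun x : E => xi N n ⬝ᵥ x := by
    have := (dl (xi N n)).continuous
    refine this.congr fun y => dl_apply _ _
  exact ((continuous_const.mul (Real.continuous_sin.comp h2)).neg).smul continuous_const

theorem hasSum_v0 {α : ℝ} {N : ℕ} (h0 : 0 < α) (hα : 4 ≤ (N : ℝ) ^ α) (hN : 4 ≤ N) (x : E)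
    (i : Fin 3) : HasSum (fun n => term α N n x i) (v0 α N x i) := by
  have h1 := (sum_term h0 hα hN x).hasSum
  exact h1.mapL (ContinuousLinearMap.proj (R := ℝ) (φ := fun _ : Fin 3 => ℝ) i)

theorem per_v0 {α : ℝ} {N : ℕ} (h0 : 0 < α) (hα : 4 ≤ (N : ℝ) ^ α) (hN : 4 ≤ N) (i : Fin 3) :
    Per (fun x => v0 α N x i) := by
  intro x j
  have h1 := hasSum_v0 h0 hα hN x i
  have h2 := hasSum_v0 h0 hα hN (x + Pi.single j (2 * Real.pi)) i
  refine h2.unique (h1.congr_fun fun n => ?_)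
  rw [term_apply, term_apply, dotProduct_add, dotProduct_single]
  congr 2
  have h3 : ∃ k : ℕ, xi N n j = k := by
    rw [xi, Pi.smul_apply, smul_eq_mul]
    rcases dir_01 n j with h | h <;> rw [h]
    · exact ⟨0, by simp⟩
    · exact ⟨N ^ (n ^ 2), by push_cast; ring⟩
  obtain ⟨k, hk⟩ := h3
  rw [hk]
  exact Real.cos_add_nat_mul_two_pi _ _

theorem div_v0 {α : ℝ} {N : ℕ} (h0 : 0 < α) (hα : 4 ≤ (N : ℝ) ^ α) (hN : 4 ≤ N) (x : E) :
    ∑ i, pd i (fun z => v0 α N z i) x = 0 := by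
  have h1 := hasSum_sum (s := (Finset.univ : Finset (Fin 3))) fun i _ => hasSum_pd h0 hα hN x i i
  refine h1.unique ?_
  have h2 : (fun n => ∑ i : Fin 3, -(am α N n * Real.sin (xi N n ⬝ᵥ x) * xi N n i * pol n i)) =
      fun _ => 0 := by
    funext n
    have h3 : ∀ i : Fin 3, -(am α N n * Real.sin (xi N n ⬝ᵥ x) * xi N n i * pol n i) =
        -(am α N n * Real.sin (xi N n ⬝ᵥ x) * (N : ℝ) ^ (n ^ 2)) * (dir n i * pol n i) := by
      intro i
      rw [xi, Pi.smul_apply, smul_eq_mul]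
      ring
    rw [Finset.sum_congr rfl fun i _ => h3 i, ← Finset.mul_sum, pol_dir, mul_zero]
  rw [h2]
  exact hasSum_zero

theorem entry_le {α : ℝ} {N : ℕ} (hN : 4 ≤ N) (n : ℕ) (i j : Fin 3) (s : ℝ) :
    |-(am α N n * s * xi N n j * pol n i)| ≤ (lamn N n) ^ (-α) * |s| := by
  rw [abs_neg, abs_mul, abs_mul, abs_mul, abs_of_nonneg (am_nonneg hN n)]
  have h1 := xi_le hN n j
  have h3 := pol_le n i
  have h4 := am_nonneg (α := α) hN n
  have h5 := lam_pos hN n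
  calc am α N n * |s| * |xi N n j| * |pol n i| ≤ am α N n * |s| * lamn N n * 1 := by gcongr
    _ = (am α N n * lamn N n) * |s| := by ring
    _ = _ := by rw [am_mul hN]

theorem sin_sub_le (a b : ℝ) : |Real.sin a - Real.sin b| ≤ min 2 |a - b| := by
  refine le_min ?_ ?_
  · have h1 := Real.abs_sin_le_one a
    have h2 := Real.abs_sin_le_one b
    have h3 := abs_sub (Real.sin a) (Real.sin b)
    linarith
  · exact Real.abs_sin_sub_sin_le _ _

theorem isVelocity_v0 {α : ℝ} {N : ℕ} (h0 : 0 < α) (h1 : α < 1) (hα : 4 ≤ (N : ℝ) ^ α)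
    (hN : 4 ≤ N) : IsVelocity α (v0 α N) := by
  refine ⟨fun i => (contDiff_pi.1 (contDiff_v0 h0 hα hN)) i, per_v0 h0 hα hN, ?_,
    div_v0 h0 hα hN⟩
  obtain ⟨C, hC, hCs⟩ := hoelder_sum α h0 h1
  refine ⟨max (4 / 3) C, fun i x => ?_⟩
  have hpd0 : ∀ (j : Fin 3) (y : E), pd j (fun z => (0 : E → E) z i) y = 0 := by
    intro j y
    simp [pd]
  refine ⟨?_, fun j => ⟨?_, fun y => ?_⟩⟩
  · refine le_trans ?_ (le_max_left _ _)
    have e : (0 : E → E) x i = 0 := rfl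
    rw [e, sub_zero]
    exact hs_bound (hasSum_v0 h0 hα hN x i) fun K =>
      (Finset.sum_le_sum fun n _ => term_le h0 hα hN n x i).trans (geo K)
  · refine le_trans ?_ (le_max_left _ _)
    rw [hpd0, sub_zero]
    refine hs_bound (hasSum_pd h0 hα hN x i j) fun K =>
      (Finset.sum_le_sum fun n _ => ?_).trans (geo K)
    refine (entry_le hN n i j _).trans ?_
    calc (lamn N n) ^ (-α) * |Real.sin (xi N n ⬝ᵥ x)| ≤ (1 / 4) ^ n * 1 :=
          mul_le_mul (lam_rpow h0 hα hN n) (Real.abs_sin_le_one _) (abs_nonneg _) (by positivity)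
      _ = _ := mul_one _
  · rw [hpd0, hpd0, sub_zero, sub_zero]
    rcases eq_or_ne x y with rfl | hxy
    · rw [sub_self, abs_zero]
      exact mul_nonneg (le_trans (by norm_num) (le_max_left _ _))
        (Real.rpow_nonneg (norm_nonneg _) _)
    · have hd : 0 < ‖x - y‖ := norm_pos_iff.2 (sub_ne_zero.2 hxy)
      refine le_trans ?_ (mul_le_mul_of_nonneg_right (le_max_right (4 / 3) C)
        (Real.rpow_nonneg hd.le _))
      refine hs_bound ((hasSum_pd h0 hα hN x i j).sub (hasSum_pd h0 hα hN y i j)) fun K =>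
        (Finset.sum_le_sum fun n _ => ?_).trans
          (hCs (lamn N) (lam_pos hN) (lam_two hN) ‖x - y‖ hd K)
      have e : -(am α N n * Real.sin (xi N n ⬝ᵥ x) * xi N n j * pol n i) -
          -(am α N n * Real.sin (xi N n ⬝ᵥ y) * xi N n j * pol n i) =
          -(am α N n * (Real.sin (xi N n ⬝ᵥ x) - Real.sin (xi N n ⬝ᵥ y)) * xi N n j * pol n i) := by
        ring
      rw [e]
      refine (entry_le hN n i j _).trans ?_
      have h2 := sin_sub_le (xi N n ⬝ᵥ x) (xi N n ⬝ᵥ y)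
      have h3 : 0 ≤ (lamn N n) ^ (-α) := Real.rpow_nonneg (lam_pos hN n).le _
      refine le_min ?_ ?_
      · calc (lamn N n) ^ (-α) * |Real.sin (xi N n ⬝ᵥ x) - Real.sin (xi N n ⬝ᵥ y)|
            ≤ (lamn N n) ^ (-α) * 2 :=
              mul_le_mul_of_nonneg_left (h2.trans (min_le_left _ _)) h3
          _ = _ := mul_comm _ _
      · have h4 : |xi N n ⬝ᵥ x - xi N n ⬝ᵥ y| ≤ 3 * lamn N n * ‖x - y‖ := by
          rw [← dotProduct_sub]
          exact dot_le hN n (x - y)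
        calc (lamn N n) ^ (-α) * |Real.sin (xi N n ⬝ᵥ x) - Real.sin (xi N n ⬝ᵥ y)|
            ≤ (lamn N n) ^ (-α) * (3 * lamn N n * ‖x - y‖) :=
              mul_le_mul_of_nonneg_left ((h2.trans (min_le_right _ _)).trans h4) h3
          _ = 3 * ((lamn N n) ^ (-α) * lamn N n) * ‖x - y‖ := by ring
          _ = 3 * (lamn N n) ^ (1 - α) * ‖x - y‖ := by
            congr 2
            nth_rw 2 [← Real.rpow_one (lamn N n)]
            rw [← Real.rpow_add (lam_pos hN n)]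
            congr 1
            ring

/-! ### The vorticity -/

theorem curl_v0 {α : ℝ} {N : ℕ} (h0 : 0 < α) (hα : 4 ≤ (N : ℝ) ^ α) (hN : 4 ≤ N) (a : ℝ) :
    |curlL (fderiv ℝ (v0 α N) ![a, 0, 0]) 2 + Real.sin a| ≤ 1 / 3 := by
  set x : E := ![a, 0, 0] with hx
  have h1 := (hasSum_entry h0 hα hN x 1 0).sub (hasSum_entry h0 hα hN x 0 1)
  have h2 : curlL (fderiv ℝ (v0 α N) x) 2 =
      fderiv ℝ (v0 α N) x (Pi.single 0 1) 1 - fderiv ℝ (v0 α N) x (Pi.single 1 1) 0 := by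
    simp [curlL]
  rw [← h2] at h1
  have h3 := (hasSum_nat_add_iff' 1).2 h1
  have hd0 : dir 0 = ![1, 0, 0] := rfl
  have hp0 : pol 0 = ![0, 1, 0] := rfl
  have hn0 : nn (dir 0) = 1 := by
    rw [hd0, nn]
    simp [dotProduct, Fin.sum_univ_three]
  have hl0 : lamn N 0 = 1 := by
    rw [lamn, hn0]
    simp
  have ha0 : am α N 0 = 1 := by rw [am, hl0, Real.one_rpow]
  have hx0 : xi N 0 = ![1, 0, 0] := by
    rw [xi, hd0]
    simp
  have hs0 : xi N 0 ⬝ᵥ x = a := by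
    rw [hx0, hx]
    simp [dotProduct, Fin.sum_univ_three]
  have e0 : ∑ n ∈ range 1, (-(am α N n * Real.sin (xi N n ⬝ᵥ x) * xi N n 0 * pol n 1) -
      -(am α N n * Real.sin (xi N n ⬝ᵥ x) * xi N n 1 * pol n 0)) = -Real.sin a := by
    rw [Finset.sum_range_one, ha0, hs0, hx0, hp0]
    simp
  rw [e0, sub_neg_eq_add] at h3
  refine hs_bound h3 fun K => (Finset.sum_le_sum fun n _ => ?_).trans (geo1 K)
  have e : -(am α N (n + 1) * Real.sin (xi N (n + 1) ⬝ᵥ x) * xi N (n + 1) 0 * pol (n + 1) 1) -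
      -(am α N (n + 1) * Real.sin (xi N (n + 1) ⬝ᵥ x) * xi N (n + 1) 1 * pol (n + 1) 0) =
      -(am α N (n + 1) * (N : ℝ) ^ ((n + 1) ^ 2) * Real.sin (xi N (n + 1) ⬝ᵥ x) *
        (dir (n + 1) 0 * pol (n + 1) 1 - dir (n + 1) 1 * pol (n + 1) 0)) := by
    simp only [xi, Pi.smul_apply, smul_eq_mul]
    ring
  have h4 := am_nonneg (α := α) hN (n + 1)
  have h5 := pow_pos' hN (n + 1)
  rw [e, abs_neg, abs_mul, abs_mul, abs_mul, abs_of_nonneg h4, abs_of_pos h5]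
  calc am α N (n + 1) * (N : ℝ) ^ ((n + 1) ^ 2) * |Real.sin (xi N (n + 1) ⬝ᵥ x)| *
        |dir (n + 1) 0 * pol (n + 1) 1 - dir (n + 1) 1 * pol (n + 1) 0|
      ≤ am α N (n + 1) * (N : ℝ) ^ ((n + 1) ^ 2) * 1 * nn (dir (n + 1)) := by
        have h6 := Real.abs_sin_le_one (xi N (n + 1) ⬝ᵥ x)
        have h7 := vor (n + 1)
        gcongr
    _ = am α N (n + 1) * lamn N (n + 1) := by rw [lamn]; ring
    _ = (lamn N (n + 1)) ^ (-α) := am_mul hN (n + 1)
    _ ≤ (1 / 4) ^ (n + 1) := lam_rpow h0 hα hN (n + 1)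

theorem thm : G_V0 := by
  intro α N h0 h1 hα hN
  refine ⟨isVelocity_v0 h0 h1 hα hN, ?_, ?_⟩
  · have h := (abs_le.1 (curl_v0 h0 hα hN (Real.pi / 2))).2
    rw [Real.sin_pi_div_two] at h
    linarith
  · have h := (abs_le.1 (curl_v0 h0 hα hN (-(Real.pi / 2)))).1
    rw [Real.sin_neg, Real.sin_pi_div_two] at h
    linarith

end Pool.Agent.Helper8.Torus
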